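import Pool.Agent.Helper37.DG.Stmts2

set_option autoImplicit false

/-! # Lattices of index `e` containing the vectors with `e` dividing `x ^ 2 + D * y ^ 2` -/

namespace Pool.Agent.Helper37.DG

open Finset
open scoped Classical

/-- splitting a power of a prime -/
theorem idld_split {p : ℤ} (hp : Prime p) (l : ℕ) (b : ℤ) : ∀ (k : ℕ) (a : ℤ),
    p ^ (k + l) ∣ a * b → ¬ p ^ (k + 1) ∣ a → p ^ l ∣ b := by
  intro k
  induction k with
  | zero =>
    intro a h1 h2
    rw [zero_add] at h1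
    rw [zero_add, pow_one] at h2
    exact hp.pow_dvd_of_dvd_mul_left l h2 h1
  | succ k ih =>
    intro a h1 h2
    by_cases h3 : p ∣ a
    · obtain ⟨c, rfl⟩ := h3
      refine ih c ?_ ?_
      · have e1 : p ^ (k + 1 + l) = p * p ^ (k + l) := by
          rw [show k + 1 + l = (k + l) + 1 by omega, pow_succ, mul_comm]
        rw [e1, mul_assoc] at h1
        exact (mul_dvd_mul_iff_left hp.ne_zero).1 h1
      · intro h4
        apply h2
        rw [pow_succ, mul_comm]
        exact mul_dvd_mul_left _ h4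
    · exact (pow_dvd_pow p (by omega : l ≤ k + 1 + l)).trans
        (hp.pow_dvd_of_dvd_mul_left _ h3 h1)

/-- a primitive vector gives a root -/
theorem idld_prim {p : ℕ} (hp : p.Prime) {D n : ℕ} (hn : 1 ≤ n) {x y : ℤ}
    (hxy : ¬ ((p : ℤ) ∣ x ∧ (p : ℤ) ∣ y)) (h : (p : ℤ) ^ n ∣ x ^ 2 + D * y ^ 2) :
    ∃ s : ℤ, (p : ℤ) ^ n ∣ s ^ 2 + D ∧ (p : ℤ) ^ n ∣ x - s * y := by
  have hpz : Prime (p : ℤ) := Nat.prime_iff_prime_int.1 hp
  have hp1 : (p : ℤ) ∣ x ^ 2 + D * y ^ 2 := (dvd_pow_self _ (by omega)).trans h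
  have hy : ¬ (p : ℤ) ∣ y := by
    intro hy
    apply hxy
    refine ⟨?_, hy⟩
    have h1 : (p : ℤ) ∣ x ^ 2 := by
      have h2 : (p : ℤ) ∣ D * y ^ 2 := Dvd.dvd.mul_left (Dvd.dvd.pow hy two_ne_zero) _
      have := dvd_sub hp1 h2
      have e : x ^ 2 + D * y ^ 2 - D * y ^ 2 = x ^ 2 := by ring
      rwa [e] at this
    exact hpz.dvd_of_dvd_pow h1
  have hc : IsCoprime ((p : ℤ) ^ n) y := IsCoprime.pow_left ((Prime.coprime_iff_not_dvd hpz).2 hy)
  obtain ⟨u, v, huv⟩ := hc
  obtain ⟨m, hm⟩ := h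
  refine ⟨x * v, ⟨v ^ 2 * m + D * u * (1 + v * y), ?_⟩, ⟨x * u, ?_⟩⟩
  · have e1 : (x * v) ^ 2 + D = v ^ 2 * (x ^ 2 + D * y ^ 2) + D * (1 - v * y) * (1 + v * y) := by
      ring
    have e2 : 1 - v * y = u * (p : ℤ) ^ n := by linear_combination -huv
    rw [e1, hm, e2]
    ring
  · linear_combination (-x) * huv

/-- the conclusion for one vector, prime power case -/
def idld_Q (p : ℕ) (Rt : ℕ → Finset ℤ) (a : ℕ) (x y : ℤ) : Prop :=
  (∃ i, 2 * i < a ∧ (p : ℤ) ^ i ∣ y ∧ ∃ r ∈ Rt (a - 2 * i), (p : ℤ) ^ (a - i) ∣ x - r * y) ∨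
  ((a % 2 = 0 ∨ Rt 1 = ∅) ∧ (p : ℤ) ^ (a / 2) ∣ y ∧ (p : ℤ) ^ (a - a / 2) ∣ x)

/-- `Rt n` represents all roots modulo `p ^ n` -/
def idld_Cov (D p : ℕ) (Rt : ℕ → Finset ℤ) : Prop :=
  ∀ n, 1 ≤ n → ∀ s : ℤ, (p : ℤ) ^ n ∣ s ^ 2 + D → ∃ r ∈ Rt n, (p : ℤ) ^ n ∣ s - r

theorem idld_rec {p : ℕ} (hp : p.Prime) {D : ℕ} {Rt : ℕ → Finset ℤ} (hR : idld_Cov D p Rt)
    (a : ℕ) : ∀ x y : ℤ, (p : ℤ) ^ a ∣ x ^ 2 + D * y ^ 2 → idld_Q p Rt a x y := by
  have hp0 : (p : ℤ) ≠ 0 := by exact_mod_cast hp.ne_zero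
  induction a using Nat.strong_induction_on with
  | _ a ih =>
    intro x y h
    rcases Nat.eq_zero_or_pos a with rfl | ha
    · exact Or.inr ⟨Or.inl rfl, by simp, by simp⟩
    by_cases hxy : (p : ℤ) ∣ x ∧ (p : ℤ) ∣ y
    · obtain ⟨⟨x', rfl⟩, ⟨y', rfl⟩⟩ := hxy
      by_cases ha1 : a = 1
      · subst ha1
        by_cases hE : Rt 1 = ∅
        · right
          refine ⟨Or.inr hE, by simp, ?_⟩
          simp
        · left
          obtain ⟨r, hr⟩ := Finset.nonempty_iff_ne_empty.2 hE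
          refine ⟨0, by norm_num, by simp, r, hr, ⟨x' - r * y', ?_⟩⟩
          simp only [Nat.sub_zero, pow_one]
          ring
      · obtain ⟨b, rfl⟩ : ∃ b, a = b + 2 := ⟨a - 2, by omega⟩
        have h1 : (p : ℤ) ^ b ∣ x' ^ 2 + D * y' ^ 2 := by
          have e1 : ((p : ℤ) * x') ^ 2 + D * ((p : ℤ) * y') ^ 2
              = (p : ℤ) ^ 2 * (x' ^ 2 + D * y' ^ 2) := by
            ring
          rw [e1, pow_add, mul_comm ((p : ℤ) ^ b)] at h
          exact (mul_dvd_mul_iff_left (pow_ne_zero 2 hp0)).1 h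
        rcases ih b (by omega) x' y' h1 with ⟨i, hi, hy, r, hr, hx⟩ | ⟨hb, hy, hx⟩
        · left
          have e2 : b + 2 - (i + 1) = (b - i) + 1 := by omega
          have e3 : b + 2 - 2 * (i + 1) = b - 2 * i := by omega
          refine ⟨i + 1, by omega, ?_, r, ?_, ?_⟩
          · rw [pow_succ, mul_comm]
            exact mul_dvd_mul_left _ hy
          · rw [e3]
            exact hr
          · rw [e2, pow_succ, mul_comm ((p : ℤ) ^ (b - i))]
            have e4 : (p : ℤ) * x' - r * (p * y') = p * (x' - r * y') := by ring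
            rw [e4]
            exact mul_dvd_mul_left _ hx
        · right
          have e2 : (b + 2) / 2 = b / 2 + 1 := by omega
          have e3 : b + 2 - (b / 2 + 1) = (b - b / 2) + 1 := by omega
          rw [e2, e3, pow_succ, pow_succ, mul_comm ((p : ℤ) ^ (b / 2)),
            mul_comm ((p : ℤ) ^ (b - b / 2))]
          refine ⟨?_, mul_dvd_mul_left _ hy, mul_dvd_mul_left _ hx⟩
          rcases hb with hb | hb
          · left
            omega
          · exact Or.inr hb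
    · left
      obtain ⟨s, hs1, hs2⟩ := idld_prim hp ha hxy h
      obtain ⟨r, hr, hsr⟩ := hR a ha s hs1
      refine ⟨0, by omega, by simp, r, by simpa using hr, ?_⟩
      have e1 : x - r * y = (x - s * y) + (s - r) * y := by ring
      rw [Nat.sub_zero, e1]
      exact dvd_add hs2 (Dvd.dvd.mul_right hsr _)

/-- the list of lattices -/
def idld_Good (D : ℕ) (j : ℕ → ℤ) (A : Finset ℕ) (e B : ℕ) : Prop :=
  ∃ L : Finset (ℕ × ℤ), L.card ≤ B ∧ (∀ l ∈ L, 1 ≤ l.1 ∧ l.1 ^ 2 ∣ e) ∧
  ∀ x y : ℤ, (e : ℤ) ∣ x ^ 2 + D * y ^ 2 → (∀ p ∈ A, ¬ (p : ℤ) ∣ x + j p * y) →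
    ∃ l ∈ L, (l.1 : ℤ) ∣ y ∧ ((e / l.1 : ℕ) : ℤ) ∣ x - l.2 * y

theorem idld_ofCov {p : ℕ} (hp : p.Prime) {D : ℕ} {Rt : ℕ → Finset ℤ} (hR : idld_Cov D p Rt)
    (c : ℕ) (hc : ∀ n, 1 ≤ n → (Rt n).card ≤ c) (j : ℕ → ℤ) (A : Finset ℕ) (a : ℕ) :
    idld_Good D j A (p ^ a) (c * ((a + 1) / 2) + if a % 2 = 0 ∨ Rt 1 = ∅ then 1 else 0) := by
  refine ⟨((range ((a + 1) / 2)).biUnion fun i => (Rt (a - 2 * i)).image fun r => (p ^ i, r)) ∪
      (if a % 2 = 0 ∨ Rt 1 = ∅ then {(p ^ (a / 2), 0)} else ∅), ?_, ?_, ?_⟩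
  · refine (Finset.card_union_le _ _).trans ?_
    refine Nat.add_le_add ?_ ?_
    · have h1 : ((range ((a + 1) / 2)).biUnion fun i =>
          (Rt (a - 2 * i)).image fun r => (p ^ i, r)).card ≤ ((range ((a + 1) / 2)).card) * c := by
        refine Finset.card_biUnion_le_card_mul _ _ _ fun i hi => ?_
        rw [Finset.mem_range] at hi
        exact Finset.card_image_le.trans (hc _ (by omega))
      rw [Finset.card_range, mul_comm] at h1
      exact h1
    · split_ifs
      · rw [Finset.card_singleton]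
      · rw [Finset.card_empty]
  · intro l hl
    rw [Finset.mem_union, Finset.mem_biUnion] at hl
    rcases hl with ⟨i, hi, hl⟩ | hl
    · rw [Finset.mem_range] at hi
      rw [Finset.mem_image] at hl
      obtain ⟨r, _, rfl⟩ := hl
      simp only
      rw [← pow_mul]
      exact ⟨Nat.one_le_pow _ _ hp.pos, pow_dvd_pow p (by omega)⟩
    · split_ifs at hl with h2
      · rw [Finset.mem_singleton] at hl
        rw [hl]
        simp only
        rw [← pow_mul]
        exact ⟨Nat.one_le_pow _ _ hp.pos, pow_dvd_pow p (by omega)⟩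
      · simp at hl
  · intro x y h _
    have h' : (p : ℤ) ^ a ∣ x ^ 2 + D * y ^ 2 := by exact_mod_cast h
    rcases idld_rec hp hR a x y h' with ⟨i, hi, hy, r, hr, hx⟩ | ⟨ha, hy, hx⟩
    · have e1 : ((p ^ a / p ^ i : ℕ) : ℤ) = (p : ℤ) ^ (a - i) := by
        rw [Nat.pow_div (by omega) hp.pos]
        push_cast
        rfl
      refine ⟨(p ^ i, r), ?_, ?_, ?_⟩
      · rw [Finset.mem_union, Finset.mem_biUnion]
        exact Or.inl ⟨i, Finset.mem_range.2 (by omega), Finset.mem_image.2 ⟨r, hr, rfl⟩⟩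
      · push_cast
        exact hy
      · simp only
        rw [e1]
        exact hx
    · refine ⟨(p ^ (a / 2), 0), ?_, ?_, ?_⟩
      · rw [Finset.mem_union, if_pos ha]
        exact Or.inr (Finset.mem_singleton_self _)
      · push_cast
        exact hy
      · simp only
        rw [Nat.pow_div (by omega) hp.pos]
        push_cast
        rw [zero_mul, sub_zero]
        exact hx

/-- the primes of `A` -/
theorem idld_inA {p : ℕ} (hp : p.Prime) {D : ℕ} {j : ℕ → ℤ} {A : Finset ℕ} (hpA : p ∈ A)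
    (h2 : ¬ p ∣ 2 * D) (hj : (p : ℤ) ∣ j p ^ 2 + D) (a : ℕ) (ha : 1 ≤ a) :
    idld_Good D j A (p ^ a) 1 := by
  have hpz : Prime (p : ℤ) := Nat.prime_iff_prime_int.1 hp
  have hj0 : ¬ (p : ℤ) ∣ 2 * j p := by
    intro h
    apply h2
    rcases hpz.dvd_or_dvd h with h3 | h3
    · have h4 : p ∣ 2 := by exact_mod_cast h3
      exact Dvd.dvd.mul_right h4 D
    · have h4 : (p : ℤ) ∣ D := by
        have := dvd_sub hj (Dvd.dvd.pow h3 two_ne_zero)
        have e : j p ^ 2 + (D : ℤ) - j p ^ 2 = D := by ring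
        rwa [e] at this
      have h5 : p ∣ D := by exact_mod_cast h4
      exact Dvd.dvd.mul_left h5 2
  by_cases hex : ∃ s : ℤ, (p : ℤ) ^ a ∣ s ^ 2 + D ∧ (p : ℤ) ∣ s - j p
  · obtain ⟨s, hs, hsj⟩ := hex
    refine ⟨{(1, s)}, by simp, ?_, ?_⟩
    · intro l hl
      rw [Finset.mem_singleton] at hl
      rw [hl]
      simp
    · intro x y h hA
      have hxj := hA p hpA
      have hxy : ¬ ((p : ℤ) ∣ x ∧ (p : ℤ) ∣ y) := fun h3 =>
        hxj (dvd_add h3.1 (Dvd.dvd.mul_left h3.2 _))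
      have h' : (p : ℤ) ^ a ∣ x ^ 2 + D * y ^ 2 := by exact_mod_cast h
      obtain ⟨t, ht1, ht2⟩ := idld_prim hp ha hxy h'
      have hpt : (p : ℤ) ∣ x - t * y := (dvd_pow_self _ (by omega)).trans ht2
      have hpt1 : (p : ℤ) ∣ t ^ 2 + D := (dvd_pow_self _ (by omega)).trans ht1
      have h4 : (p : ℤ) ∣ (t - j p) * (t + j p) := by
        have := dvd_sub hpt1 hj
        have e : t ^ 2 + (D : ℤ) - (j p ^ 2 + D) = (t - j p) * (t + j p) := by ring
        rwa [e] at this
      have h5 : ¬ (p : ℤ) ∣ t + j p := by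
        intro h5
        apply hxj
        have e : x + j p * y = (x - t * y) + (t + j p) * y := by ring
        rw [e]
        exact dvd_add hpt (Dvd.dvd.mul_right h5 _)
      have h6 : (p : ℤ) ∣ t - j p := (hpz.dvd_or_dvd h4).resolve_right h5
      have h7 : ¬ (p : ℤ) ∣ t + s := by
        intro h7
        apply hj0
        have := dvd_sub (dvd_sub h7 h6) hsj
        have e : t + s - (t - j p) - (s - j p) = 2 * j p := by ring
        rwa [e] at this
      have h8 : (p : ℤ) ^ a ∣ (t + s) * (t - s) := by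
        have := dvd_sub ht1 hs
        have e : t ^ 2 + (D : ℤ) - (s ^ 2 + D) = (t + s) * (t - s) := by ring
        rwa [e] at this
      have h9 : (p : ℤ) ^ a ∣ t - s := hpz.pow_dvd_of_dvd_mul_left a h7 h8
      refine ⟨(1, s), Finset.mem_singleton_self _, by simp, ?_⟩
      simp only [Nat.div_one]
      push_cast
      have e : x - s * y = (x - t * y) + (t - s) * y := by ring
      rw [e]
      exact dvd_add ht2 (Dvd.dvd.mul_right h9 _)
  · refine ⟨{(1, 0)}, by simp, ?_, ?_⟩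
    · intro l hl
      rw [Finset.mem_singleton] at hl
      rw [hl]
      simp
    · intro x y h hA
      exfalso
      have hxj := hA p hpA
      have hxy : ¬ ((p : ℤ) ∣ x ∧ (p : ℤ) ∣ y) := fun h3 =>
        hxj (dvd_add h3.1 (Dvd.dvd.mul_left h3.2 _))
      have h' : (p : ℤ) ^ a ∣ x ^ 2 + D * y ^ 2 := by exact_mod_cast h
      obtain ⟨t, ht1, ht2⟩ := idld_prim hp ha hxy h'
      have hpt : (p : ℤ) ∣ x - t * y := (dvd_pow_self _ (by omega)).trans ht2
      have hpt1 : (p : ℤ) ∣ t ^ 2 + D := (dvd_pow_self _ (by omega)).trans ht1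
      have h4 : (p : ℤ) ∣ (t - j p) * (t + j p) := by
        have := dvd_sub hpt1 hj
        have e : t ^ 2 + (D : ℤ) - (j p ^ 2 + D) = (t - j p) * (t + j p) := by ring
        rwa [e] at this
      have h5 : ¬ (p : ℤ) ∣ t + j p := by
        intro h5
        apply hxj
        have e : x + j p * y = (x - t * y) + (t + j p) * y := by ring
        rw [e]
        exact dvd_add hpt (Dvd.dvd.mul_right h5 _)
      exact hex ⟨t, ht1, (hpz.dvd_or_dvd h4).resolve_right h5⟩

/-- representatives of the roots, split primes -/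
theorem idld_covSpl {p : ℕ} (hp : p.Prime) {D : ℕ} (h2 : ¬ p ∣ 2 * D) :
    ∃ Rt : ℕ → Finset ℤ, idld_Cov D p Rt ∧ ∀ n, (Rt n).card ≤ 2 := by
  have hpz : Prime (p : ℤ) := Nat.prime_iff_prime_int.1 hp
  have key : ∀ n : ℕ, ∃ R : Finset ℤ, R.card ≤ 2 ∧ (1 ≤ n → ∀ s : ℤ, (p : ℤ) ^ n ∣ s ^ 2 + D →
      ∃ r ∈ R, (p : ℤ) ^ n ∣ s - r) := by
    intro n
    by_cases hex : ∃ t : ℤ, (p : ℤ) ^ n ∣ t ^ 2 + D
    · obtain ⟨t, ht⟩ := hex
      refine ⟨{t, -t}, Finset.card_le_two, fun hn s hs => ?_⟩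
      have h3 : (p : ℤ) ^ n ∣ (s - t) * (s + t) := by
        have := dvd_sub hs ht
        have e : s ^ 2 + (D : ℤ) - (t ^ 2 + D) = (s - t) * (s + t) := by ring
        rwa [e] at this
      by_cases h4 : (p : ℤ) ∣ s - t
      · have h5 : ¬ (p : ℤ) ∣ s + t := by
          intro h5
          have h6 : (p : ℤ) ∣ 2 * s := by
            have := dvd_add h4 h5
            have e : (s - t) + (s + t) = 2 * s := by ring
            rwa [e] at this
          apply h2
          rcases hpz.dvd_or_dvd h6 with h7 | h7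
          · have h8 : p ∣ 2 := by exact_mod_cast h7
            exact Dvd.dvd.mul_right h8 D
          · have h8 : (p : ℤ) ∣ D := by
              have := dvd_sub ((dvd_pow_self _ (by omega)).trans hs) (Dvd.dvd.pow h7 two_ne_zero)
              have e : s ^ 2 + (D : ℤ) - s ^ 2 = D := by ring
              rwa [e] at this
            have h9 : p ∣ D := by exact_mod_cast h8
            exact Dvd.dvd.mul_left h9 2
        refine ⟨t, Finset.mem_insert_self _ _, ?_⟩
        exact hpz.pow_dvd_of_dvd_mul_right n h5 h3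
      · refine ⟨-t, Finset.mem_insert_of_mem (Finset.mem_singleton_self _), ?_⟩
        have := hpz.pow_dvd_of_dvd_mul_left n h4 h3
        have e : s - -t = s + t := by ring
        rwa [e]
    · refine ⟨∅, by simp, fun _ s hs => absurd ⟨s, hs⟩ hex⟩
  choose Rt h3 h4 using key
  exact ⟨Rt, fun n hn s hs => h4 n hn s hs, h3⟩

/-- representatives of the roots, primes dividing `2 * D` -/
theorem idld_covRam {p : ℕ} (hp : p.Prime) {D : ℕ} (hD : 1 ≤ D) :
    ∃ Rt : ℕ → Finset ℤ, idld_Cov D p Rt ∧ ∀ n, (Rt n).card ≤ 8 * D := by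
  have hpz : Prime (p : ℤ) := Nat.prime_iff_prime_int.1 hp
  have hp0 : 0 < p := hp.pos
  obtain ⟨V, hV1, hV2⟩ : ∃ V : ℕ, p ^ V ∣ 4 * D ∧ ¬ p ^ (V + 1) ∣ 4 * D :=
    ⟨(4 * D).factorization p, Nat.ordProj_dvd _ _,
      Nat.pow_succ_factorization_not_dvd (by omega) hp⟩
  have hV3 : p ^ V ≤ 4 * D := Nat.le_of_dvd (by omega) hV1
  have key : ∀ n : ℕ, ∃ R : Finset ℤ, R.card ≤ 8 * D ∧ (1 ≤ n → ∀ s : ℤ,
      (p : ℤ) ^ n ∣ s ^ 2 + D → ∃ r ∈ R, (p : ℤ) ^ n ∣ s - r) := by
    intro n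
    by_cases hn : n ≤ V
    · refine ⟨(range (p ^ n)).image (fun k : ℕ => (k : ℤ)), ?_, fun _ s _ => ?_⟩
      · refine Finset.card_image_le.trans ?_
        rw [Finset.card_range]
        have := Nat.pow_le_pow_right hp0 hn
        omega
      · have hpn : (0 : ℤ) < (p : ℤ) ^ n := by positivity
        refine ⟨s % (p : ℤ) ^ n, ?_, Int.dvd_self_sub_emod⟩
        rw [Finset.mem_image]
        refine ⟨(s % (p : ℤ) ^ n).toNat, ?_, ?_⟩
        · rw [Finset.mem_range]
          have h1 := Int.emod_nonneg s hpn.ne'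
          have h2 := Int.emod_lt_of_pos s hpn
          zify
          rw [Int.toNat_of_nonneg h1]
          exact h2
        · exact Int.toNat_of_nonneg (Int.emod_nonneg s hpn.ne')
    · push Not at hn
      by_cases hex : ∃ t : ℤ, (p : ℤ) ^ n ∣ t ^ 2 + D
      · obtain ⟨t, ht⟩ := hex
        obtain ⟨k, rfl⟩ : ∃ k, n = k + (V + 1) := ⟨n - (V + 1), by omega⟩
        refine ⟨(range (p ^ V)).image (fun i : ℕ => t + (i : ℤ) * (p : ℤ) ^ (k + 1)) ∪
          (range (p ^ V)).image (fun i : ℕ => -t + (i : ℤ) * (p : ℤ) ^ (k + 1)), ?_, fun _ s hs => ?_⟩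
        · refine (Finset.card_union_le _ _).trans ?_
          have h1 : ((range (p ^ V)).image (fun i : ℕ => t + (i : ℤ) * (p : ℤ) ^ (k + 1))).card
              ≤ p ^ V := Finset.card_image_le.trans (by rw [Finset.card_range])
          have h2 : ((range (p ^ V)).image (fun i : ℕ => -t + (i : ℤ) * (p : ℤ) ^ (k + 1))).card
              ≤ p ^ V := Finset.card_image_le.trans (by rw [Finset.card_range])
          omega
        · have hres : ∀ w : ℤ, (p : ℤ) ^ (k + 1) ∣ s - w → ∃ i ∈ range (p ^ V),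
              (p : ℤ) ^ (k + (V + 1)) ∣ s - (w + (i : ℤ) * (p : ℤ) ^ (k + 1)) := by
            rintro w ⟨m, hm⟩
            have hpn : (0 : ℤ) < (p : ℤ) ^ V := by positivity
            refine ⟨(m % (p : ℤ) ^ V).toNat, ?_, ?_⟩
            · rw [Finset.mem_range]
              have h1 := Int.emod_nonneg m hpn.ne'
              have h2 := Int.emod_lt_of_pos m hpn
              zify
              rw [Int.toNat_of_nonneg h1]
              exact h2
            · rw [Int.toNat_of_nonneg (Int.emod_nonneg m hpn.ne')]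
              have e1 : s - (w + m % (p : ℤ) ^ V * (p : ℤ) ^ (k + 1))
                  = (p : ℤ) ^ (k + 1) * (m - m % (p : ℤ) ^ V) := by
                have : s - (w + m % (p : ℤ) ^ V * (p : ℤ) ^ (k + 1))
                    = (s - w) - m % (p : ℤ) ^ V * (p : ℤ) ^ (k + 1) := by ring
                rw [this, hm]
                ring
              have e2 : (p : ℤ) ^ (k + (V + 1)) = (p : ℤ) ^ (k + 1) * (p : ℤ) ^ V := by
                rw [← pow_add]
                congr 1
                omega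
              rw [e1, e2]
              exact mul_dvd_mul_left _ Int.dvd_self_sub_emod
          have h3 : (p : ℤ) ^ (k + (V + 1)) ∣ (s - t) * (s + t) := by
            have := dvd_sub hs ht
            have e : s ^ 2 + (D : ℤ) - (t ^ 2 + D) = (s - t) * (s + t) := by ring
            rwa [e] at this
          have h3' : (p : ℤ) ^ (k + (V + 1)) ∣ (s + t) * (s - t) := by rwa [mul_comm] at h3
          by_cases h4 : (p : ℤ) ^ (k + 1) ∣ s - t
          · obtain ⟨i, hi, hi2⟩ := hres t h4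
            exact ⟨_, Finset.mem_union_left _ (Finset.mem_image.2 ⟨i, hi, rfl⟩), hi2⟩
          · by_cases h5 : (p : ℤ) ^ (k + 1) ∣ s + t
            · obtain ⟨i, hi, hi2⟩ := hres (-t) (by
                have e : s - -t = s + t := by ring
                rwa [e])
              exact ⟨_, Finset.mem_union_right _ (Finset.mem_image.2 ⟨i, hi, rfl⟩), hi2⟩
            · exfalso
              have h6 := idld_split hpz (V + 1) (s + t) k (s - t) h3 h4
              have h7 := idld_split hpz (V + 1) (s - t) k (s + t) h3' h5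
              apply hV2
              have h8 : (p : ℤ) ^ (V + 1) ∣ 2 * s := by
                have := dvd_add h6 h7
                have e : (s + t) + (s - t) = 2 * s := by ring
                rwa [e] at this
              have h9 : (p : ℤ) ^ (V + 1) ∣ s ^ 2 + D :=
                (pow_dvd_pow _ (by omega)).trans hs
              have h10 : (p : ℤ) ^ (V + 1) ∣ ((4 * D : ℕ) : ℤ) := by
                have := dvd_sub (Dvd.dvd.mul_left h9 4) (Dvd.dvd.mul_right h8 (2 * s))
                have e : 4 * (s ^ 2 + (D : ℤ)) - 2 * s * (2 * s) = ((4 * D : ℕ) : ℤ) := by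
                  push_cast
                  ring
                rwa [e] at this
              exact_mod_cast h10
      · refine ⟨∅, by simp, fun _ s hs => absurd ⟨s, hs⟩ hex⟩
  choose Rt h3 h4 using key
  exact ⟨Rt, fun n hn s hs => h4 n hn s hs, h3⟩

/-- the bound for one prime -/
noncomputable def idld_b (D : ℕ) (A : Finset ℕ) (p k : ℕ) : ℕ :=
  if k = 0 then 1 else
    (if p ∣ 2 * D then 8 * D + 1 else 1) * (if Rel D p ∧ p ∉ A then k + 1 else 1)

theorem idld_mono {D : ℕ} {j : ℕ → ℤ} {A : Finset ℕ} {e B B' : ℕ} (h : idld_Good D j A e B)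
    (hB : B ≤ B') : idld_Good D j A e B' := by
  obtain ⟨L, h1, h2⟩ := h
  exact ⟨L, h1.trans hB, h2⟩

theorem idld_pp {D : ℕ} (hD : 1 ≤ D) {j : ℕ → ℤ} {A : Finset ℕ}
    (hA : ∀ p ∈ A, Spl D p ∧ (p : ℤ) ∣ j p ^ 2 + D) {p : ℕ} (hp : p.Prime) {k : ℕ} (hk : 0 < k) :
    idld_Good D j A (p ^ k) (idld_b D A p k) := by
  unfold idld_b
  rw [if_neg hk.ne']
  by_cases hpA : p ∈ A
  · obtain ⟨⟨_, h2, _⟩, hj⟩ := hA p hpA
    rw [if_neg h2, if_neg (fun h => h.2 hpA)]
    exact idld_inA hp hpA h2 hj k hk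
  · by_cases h2 : p ∣ 2 * D
    · rw [if_pos h2, if_pos ⟨⟨hp, Or.inl h2⟩, hpA⟩]
      obtain ⟨Rt, h3, h4⟩ := idld_covRam hp hD
      refine idld_mono (idld_ofCov hp h3 (8 * D) (fun n _ => h4 n) j A k) ?_
      have h5 : (k + 1) / 2 ≤ k := by omega
      have h6 : 8 * D * ((k + 1) / 2) ≤ 8 * D * k := Nat.mul_le_mul_left _ h5
      have h7 : (8 * D + 1) * (k + 1) = 8 * D * k + 8 * D + k + 1 := by ring
      rw [h7]
      split_ifs <;> omega
    · rw [if_neg h2, one_mul]
      by_cases hR : Rel D p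
      · rw [if_pos ⟨hR, hpA⟩]
        obtain ⟨_, hr⟩ := hR
        obtain ⟨r, hr⟩ := hr.resolve_left h2
        obtain ⟨Rt, h3, h4⟩ := idld_covSpl hp h2
        have h5 : Rt 1 ≠ ∅ := by
          obtain ⟨r', hr', _⟩ := h3 1 le_rfl r (by simpa using hr)
          exact Finset.ne_empty_of_mem hr'
        refine idld_mono (idld_ofCov hp h3 2 (fun n _ => h4 n) j A k) ?_
        split_ifs with h6
        · rcases h6 with h6 | h6
          · omega
          · exact absurd h6 h5
        · omega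
      · rw [if_neg (fun h => hR h.1)]
        have h3 : idld_Cov D p (fun _ => ∅) := by
          intro n hn s hs
          exfalso
          exact hR ⟨hp, Or.inr ⟨s, (dvd_pow_self _ (by omega)).trans hs⟩⟩
        refine idld_mono (idld_ofCov hp h3 0 (fun n _ => by simp) j A k) ?_
        split_ifs <;> simp

theorem idld_crt {m n : ℤ} (h : IsCoprime m n) (s t : ℤ) : ∃ r : ℤ, m ∣ r - s ∧ n ∣ r - t := by
  obtain ⟨u, v, huv⟩ := h
  refine ⟨s * (v * n) + t * (u * m), ⟨u * (t - s), ?_⟩, ⟨v * (s - t), ?_⟩⟩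
  · linear_combination s * huv
  · linear_combination t * huv

theorem idld_mul {D : ℕ} {j : ℕ → ℤ} {A : Finset ℕ} {a b B1 B2 : ℕ} (hab : a.Coprime b)
    (h1 : idld_Good D j A a B1) (h2 : idld_Good D j A b B2) :
    idld_Good D j A (a * b) (B1 * B2) := by
  obtain ⟨L1, c1, d1, f1⟩ := h1
  obtain ⟨L2, c2, d2, f2⟩ := h2
  have hex : ∀ l : (ℕ × ℤ) × (ℕ × ℤ), ∃ r : ℤ, l.1 ∈ L1 → l.2 ∈ L2 →
      ((a / l.1.1 : ℕ) : ℤ) ∣ r - l.1.2 ∧ ((b / l.2.1 : ℕ) : ℤ) ∣ r - l.2.2 := by
    intro l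
    by_cases hl : l.1 ∈ L1 ∧ l.2 ∈ L2
    · have g1 : a / l.1.1 ∣ a := Nat.div_dvd_of_dvd ((dvd_pow_self _ two_ne_zero).trans (d1 _ hl.1).2)
      have g2 : b / l.2.1 ∣ b := Nat.div_dvd_of_dvd ((dvd_pow_self _ two_ne_zero).trans (d2 _ hl.2).2)
      have g3 : (a / l.1.1).Coprime (b / l.2.1) := Nat.Coprime.coprime_dvd_left g1
        (Nat.Coprime.coprime_dvd_right g2 hab)
      obtain ⟨r, hr⟩ := idld_crt (Nat.isCoprime_iff_coprime.2 g3) l.1.2 l.2.2
      exact ⟨r, fun _ _ => hr⟩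
    · exact ⟨0, fun h3 h4 => absurd ⟨h3, h4⟩ hl⟩
  choose f hf using hex
  refine ⟨(L1 ×ˢ L2).image (fun l => (l.1.1 * l.2.1, f l)), ?_, ?_, ?_⟩
  · refine Finset.card_image_le.trans ?_
    rw [Finset.card_product]
    exact Nat.mul_le_mul c1 c2
  · intro l hl
    rw [Finset.mem_image] at hl
    obtain ⟨l', hl', rfl⟩ := hl
    rw [Finset.mem_product] at hl'
    simp only
    refine ⟨Nat.mul_pos (d1 _ hl'.1).1 (d2 _ hl'.2).1, ?_⟩
    rw [mul_pow]
    exact mul_dvd_mul (d1 _ hl'.1).2 (d2 _ hl'.2).2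
  · intro x y h hxA
    have hA : (a : ℤ) ∣ x ^ 2 + D * y ^ 2 := by
      refine dvd_trans ?_ h
      push_cast
      exact dvd_mul_right _ _
    have hB : (b : ℤ) ∣ x ^ 2 + D * y ^ 2 := by
      refine dvd_trans ?_ h
      push_cast
      exact dvd_mul_left _ _
    obtain ⟨l1, m1, y1, x1⟩ := f1 x y hA hxA
    obtain ⟨l2, m2, y2, x2⟩ := f2 x y hB hxA
    have k1 : l1.1 ∣ a := (dvd_pow_self _ two_ne_zero).trans (d1 _ m1).2
    have k2 : l2.1 ∣ b := (dvd_pow_self _ two_ne_zero).trans (d2 _ m2).2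
    have q1 : l1.1.Coprime l2.1 := Nat.Coprime.coprime_dvd_left k1
      (Nat.Coprime.coprime_dvd_right k2 hab)
    have q2 : (a / l1.1).Coprime (b / l2.1) := Nat.Coprime.coprime_dvd_left
      (Nat.div_dvd_of_dvd k1) (Nat.Coprime.coprime_dvd_right (Nat.div_dvd_of_dvd k2) hab)
    obtain ⟨r1, r2⟩ := hf (l1, l2) m1 m2
    simp only at r1 r2
    refine ⟨(l1.1 * l2.1, f (l1, l2)), Finset.mem_image.2
      ⟨(l1, l2), Finset.mem_product.2 ⟨m1, m2⟩, rfl⟩, ?_, ?_⟩
    · simp only
      push_cast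
      exact (Nat.isCoprime_iff_coprime.2 q1).mul_dvd y1 y2
    · simp only
      rw [← Nat.div_mul_div_comm k1 k2]
      push_cast
      refine IsCoprime.mul_dvd ?_ ?_ ?_
      · exact_mod_cast Nat.isCoprime_iff_coprime.2 q2
      · have e1 : x - f (l1, l2) * y = (x - l1.2 * y) - (f (l1, l2) - l1.2) * y := by ring
        rw [e1]
        refine dvd_sub ?_ (Dvd.dvd.mul_right ?_ _)
        · exact_mod_cast x1
        · exact_mod_cast r1
      · have e1 : x - f (l1, l2) * y = (x - l2.2 * y) - (f (l1, l2) - l2.2) * y := by ring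
        rw [e1]
        refine dvd_sub ?_ (Dvd.dvd.mul_right ?_ _)
        · exact_mod_cast x2
        · exact_mod_cast r2

theorem idld_good {D : ℕ} (hD : 1 ≤ D) {j : ℕ → ℤ} {A : Finset ℕ}
    (hA : ∀ p ∈ A, Spl D p ∧ (p : ℤ) ∣ j p ^ 2 + D) (e : ℕ) : 1 ≤ e →
    idld_Good D j A e (e.factorization.prod (idld_b D A)) := by
  induction e using Nat.recOnPosPrimePosCoprime with
  | prime_pow p n hp hn =>
    intro _
    have e1 : (p ^ n).factorization.prod (idld_b D A) = idld_b D A p n := by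
      rw [hp.factorization_pow]
      exact Finsupp.prod_single_index (by simp [idld_b])
    rw [e1]
    exact idld_pp hD hA hp hn
  | zero =>
    intro h
    omega
  | one =>
    intro _
    refine ⟨{(1, 0)}, ?_, ?_, ?_⟩
    · simp
    · intro l hl
      rw [Finset.mem_singleton] at hl
      rw [hl]
      simp
    · intro x y _ _
      exact ⟨(1, 0), Finset.mem_singleton_self _, by simp, by simp⟩
  | coprime a b ha hb hab iha ihb =>
    intro _
    have e1 : (a * b).factorization.prod (idld_b D A)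
        = a.factorization.prod (idld_b D A) * b.factorization.prod (idld_b D A) := by
      rw [Nat.factorization_mul_of_coprime hab]
      exact Finsupp.prod_add_index_of_disjoint (by
        rw [Nat.support_factorization, Nat.support_factorization]
        exact hab.disjoint_primeFactors) _
    rw [e1]
    exact idld_mul hab (iha ha.le) (ihb hb.le)

theorem st_IDLD : ST_IDLD := by
  intro D hD
  refine ⟨(8 * D + 1) ^ (2 * D).primeFactors.card, Nat.one_le_pow _ _ (by omega), ?_⟩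
  intro j A e hA he
  obtain ⟨L, h1, h2, h3⟩ := idld_good hD hA e he
  refine ⟨L, h1.trans ?_, h2, ?_⟩
  · have e1 : e.factorization.prod (idld_b D A) = ∏ p ∈ e.primeFactors,
        ((if p ∣ 2 * D then 8 * D + 1 else 1) *
          (if Rel D p ∧ p ∉ A then e.factorization p + 1 else 1)) := by
      rw [Finsupp.prod, Nat.support_factorization]
      refine Finset.prod_congr rfl fun p hp => ?_
      have h4 : e.factorization p ≠ 0 := by
        rw [← Nat.support_factorization, Finsupp.mem_support_iff] at hp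
        exact hp
      unfold idld_b
      rw [if_neg h4]
    rw [e1, Finset.prod_mul_distrib]
    refine Nat.mul_le_mul ?_ (le_of_eq ?_)
    · rw [← Finset.prod_filter, Finset.prod_const]
      refine Nat.pow_le_pow_right (by omega) (Finset.card_le_card ?_)
      intro p hp
      rw [Finset.mem_filter] at hp
      exact Nat.mem_primeFactors.2 ⟨Nat.prime_of_mem_primeFactors hp.1, hp.2, by omega⟩
    · rw [Finset.prod_filter]
  · intro v hv hF
    apply h3
    · unfold nmD at hv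
      exact Int.natCast_dvd.2 hv
    · intro p hp
      exact hF p hp

end Pool.Agent.Helper37.DG
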