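import Pool.Agent.Helper37.DG.Stmts
import Pool.Agent.Helper61.SO.MER

set_option autoImplicit false

/-! # Sums over smooth numbers -/

namespace Pool.Agent.Helper37.DG

open Finset
open scoped Classical

/-- the summand -/
noncomputable def sms_f (K : ℕ) (e : ℕ) : ℝ := (tau e : ℝ) ^ K / e

/-- the constant -/
noncomputable def sms_c (K : ℕ) : ℝ := ∑' n : ℕ, ((n : ℝ) + 2) ^ K * (1 / 2) ^ n

theorem sms_summable_aux (K s : ℕ) {r : ℝ} (h0 : 0 < r) (h1 : r < 1) :
    Summable (fun n : ℕ => ((n : ℝ) + s) ^ K * r ^ n) := by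
  have h2 : Summable (fun n : ℕ => (n : ℝ) ^ K * r ^ n) :=
    summable_pow_mul_geometric_of_norm_lt_one K (by rw [Real.norm_eq_abs, abs_of_pos h0]; exact h1)
  have h3 := (summable_nat_add_iff s).2 h2
  have h4 := h3.mul_left ((r ^ s)⁻¹)
  refine h4.congr fun n => ?_
  have h5 : r ^ s ≠ 0 := by positivity
  rw [Nat.cast_add, pow_add]
  field_simp

theorem sms_f_one (K : ℕ) : sms_f K 1 = 1 := by
  simp [sms_f, tau]

theorem sms_f_mul (K : ℕ) {m n : ℕ} (h : Nat.Coprime m n) :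
    sms_f K (m * n) = sms_f K m * sms_f K n := by
  unfold sms_f tau
  rw [h.card_divisors_mul]
  push_cast
  rw [mul_pow, div_mul_div_comm]

theorem sms_f_pow (K : ℕ) {p : ℕ} (hp : p.Prime) (n : ℕ) :
    sms_f K (p ^ n) = ((n : ℝ) + 1) ^ K * (1 / (p : ℝ)) ^ n := by
  unfold sms_f tau
  rw [Nat.divisors_prime_pow hp, Finset.card_map, Finset.card_range]
  push_cast
  rw [one_div, inv_pow, div_eq_mul_inv]

theorem sms_f_nn (K : ℕ) (e : ℕ) : 0 ≤ sms_f K e := by
  unfold sms_f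
  positivity

theorem sms_inv {p : ℕ} (hp : p.Prime) : 0 < 1 / (p : ℝ) ∧ 1 / (p : ℝ) ≤ 1 / 2 := by
  have h2 : (2 : ℝ) ≤ p := by exact_mod_cast hp.two_le
  exact ⟨by positivity, one_div_le_one_div_of_le (by norm_num) h2⟩

theorem sms_summable (K : ℕ) {p : ℕ} (hp : p.Prime) : Summable (fun n : ℕ => ‖sms_f K (p ^ n)‖) := by
  obtain ⟨h1, h2⟩ := sms_inv hp
  have h3 := sms_summable_aux K 1 h1 (by linarith)
  refine h3.congr fun n => ?_
  rw [Real.norm_of_nonneg (sms_f_nn K _), sms_f_pow K hp]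
  simp

theorem sms_c_nn (K : ℕ) : 0 ≤ sms_c K := tsum_nonneg fun n => by positivity

/-- bound for one factor -/
theorem sms_factor (K : ℕ) {p : ℕ} (hp : p.Prime) :
    ∑' n : ℕ, sms_f K (p ^ n) ≤ Real.exp (sms_c K * (1 / (p : ℝ))) := by
  obtain ⟨h1, h2⟩ := sms_inv hp
  have hs : Summable (fun n : ℕ => sms_f K (p ^ n)) :=
    (sms_summable K hp).of_norm
  rw [hs.tsum_eq_zero_add]
  have h3 : ∑' n : ℕ, sms_f K (p ^ (n + 1)) ≤ sms_c K * (1 / (p : ℝ)) := by
    unfold sms_c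
    rw [← tsum_mul_right]
    refine Summable.tsum_le_tsum ?_ ((summable_nat_add_iff 1).2 hs)
      ((sms_summable_aux K 2 (r := 1 / 2) (by norm_num) (by norm_num)).mul_right _)
    intro n
    rw [sms_f_pow K hp, pow_succ, ← mul_assoc]
    refine mul_le_mul_of_nonneg_right ?_ h1.le
    have e1 : ((((n + 1 : ℕ)) : ℝ) + 1) = (n : ℝ) + 2 := by push_cast; ring
    rw [e1]
    exact mul_le_mul_of_nonneg_left (pow_le_pow_left₀ h1.le h2 n) (by positivity)
  rw [pow_zero, sms_f_one]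
  have h4 := Real.add_one_le_exp (sms_c K * (1 / (p : ℝ)))
  linarith

/-- sums over smooth numbers -/
theorem st_SMS : ST_SMS := by
  intro K
  obtain ⟨C, hC, hM⟩ := Pool.Agent.Helper17.SO.mer_abs
  refine ⟨Real.exp (sms_c K * C), ⌈sms_c K⌉₊, Real.exp_pos _, ?_⟩
  intro y F hy hF
  have hy2 : (2 : ℝ) ≤ y := by exact_mod_cast hy
  have hly : 0 < Real.log y := Real.log_pos (by linarith)
  have hc := sms_c_nn K
  have h1 := (EulerProduct.summable_and_hasSum_smoothNumbers_prod_primesBelow_tsum (f := sms_f K)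
    (sms_f_one K) (fun h => sms_f_mul K h) (fun hp => sms_summable K hp) (y + 1)).2
  have h2 : ∑ e ∈ F, (tau e : ℝ) ^ K / e ≤ ∏ p ∈ (y + 1).primesBelow, ∑' n : ℕ, sms_f K (p ^ n) := by
    have e1 : ∑ e ∈ F, (tau e : ℝ) ^ K / e
        = ∑ e ∈ F.subtype (fun e => e ∈ (y + 1).smoothNumbers), sms_f K e := by
      rw [Finset.sum_subtype_of_mem (f := sms_f K)]
      · rfl
      · intro e he
        obtain ⟨k1, k2⟩ := hF e he
        rw [Nat.mem_smoothNumbers]
        refine ⟨by omega, fun p hp => ?_⟩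
        have := k2 p (Nat.prime_of_mem_primeFactorsList hp) (Nat.dvd_of_mem_primeFactorsList hp)
        omega
    rw [e1]
    exact sum_le_hasSum _ (fun e _ => sms_f_nn K e) h1
  have h3 : ∏ p ∈ (y + 1).primesBelow, ∑' n : ℕ, sms_f K (p ^ n)
      ≤ Real.exp (sms_c K * ∑ p ∈ (y + 1).primesBelow, 1 / (p : ℝ)) := by
    rw [Finset.mul_sum, Real.exp_sum]
    refine Finset.prod_le_prod (fun p hp => tsum_nonneg fun n => sms_f_nn K _) fun p hp => ?_
    exact sms_factor K (Nat.prime_of_mem_primesBelow hp)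
  have h4 : ∑ p ∈ (y + 1).primesBelow, 1 / (p : ℝ) ≤ C + Real.log (1 + Real.log y) := by
    have h5 := (abs_le.1 (hM y hy)).2
    have h6 : Real.log (Real.log y) ≤ Real.log (1 + Real.log y) :=
      Real.log_le_log hly (by linarith)
    have h7 : (y + 1).primesBelow = (range (y + 1)).filter Nat.Prime := rfl
    rw [h7]
    linarith
  have h5 : Real.exp (sms_c K * ∑ p ∈ (y + 1).primesBelow, 1 / (p : ℝ))
      ≤ Real.exp (sms_c K * C) * (1 + Real.log y) ^ ⌈sms_c K⌉₊ := by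
    have h6 : 0 < 1 + Real.log y := by linarith
    have h7 : (1 + Real.log y) ^ ⌈sms_c K⌉₊
        = Real.exp (⌈sms_c K⌉₊ * Real.log (1 + Real.log y)) := by
      rw [Real.exp_nat_mul, Real.exp_log h6]
    rw [h7, ← Real.exp_add]
    refine Real.exp_le_exp.2 ?_
    have h8 : 0 ≤ Real.log (1 + Real.log y) := Real.log_nonneg (by linarith)
    have h9 := mul_le_mul_of_nonneg_left h4 hc
    have h10 := mul_le_mul_of_nonneg_right (Nat.le_ceil (sms_c K)) h8
    rw [mul_add] at h9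
    linarith
  exact h2.trans (h3.trans h5)

end Pool.Agent.Helper37.DG
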